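import Pool.Agent.H7.NG.Stmts

/-! # Row FNQ of the board `ng19`: the theorem with `N` vertices -/

set_option autoImplicit false

open Finset

namespace Pool.NG7

open Pool.Agent.H23.KT Pool.Agent.H46.KW Pool.KQ Pool.GT7 Pool.GU7 Pool.HZ7 Pool.IA7

private lemma fnq_g8_sub {V : Type} [Fintype V] [DecidableEq V] {G : SimpleGraph V} {p r a : ℕ}
    (h : G8 G p r a) (S : Finset V) :
    G8 (G.comap (Subtype.val : {x : V // x ∉ S} → V)) p r a := by
  classical
  constructor
  · intro T _ hT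
    have h1 := h.cb (T.map (Function.Embedding.subtype _)) (subset_univ _) (by
      intro x hx y hy hxy
      rw [mem_coe, mem_map] at hx hy
      obtain ⟨x, hx, rfl⟩ := hx
      obtain ⟨y, hy, rfl⟩ := hy
      exact hT (mem_coe.2 hx) (mem_coe.2 hy) (fun h' => hxy (h' ▸ rfl)))
    rwa [card_map] at h1
  · intro v
    refine le_trans ?_ (h.deg v.1)
    rw [← card_map (Function.Embedding.subtype (fun x : V => x ∉ S))]
    refine card_le_card ?_
    intro y hy
    rw [mem_map] at hy
    obtain ⟨y, hy, rfl⟩ := hy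
    rw [mem_nb] at hy ⊢
    exact ⟨mem_univ _, hy.2⟩

private lemma fnq_kc_sub {V : Type} [Fintype V] [DecidableEq V] (G : SimpleGraph V)
    (S : Finset V) (j : ℕ) :
    kc (G.comap (Subtype.val : {x : V // x ∉ S} → V)) univ j = kc G (univ \ S) j := by
  classical
  rw [kc_map _ G (Function.Embedding.subtype (fun x : V => x ∉ S)) (fun x y => Iff.rfl)]
  congr 1
  ext y
  rw [mem_map, mem_sdiff]
  constructor
  · rintro ⟨x, _, rfl⟩
    exact ⟨mem_univ _, x.2⟩
  · rintro ⟨_, hy⟩
    exact ⟨⟨y, hy⟩, mem_univ _, rfl⟩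

private lemma fnq_kc_empty {V : Type} [Fintype V] [IsEmpty V] (G : SimpleGraph V) (w : ℕ) :
    kc G univ (w + 3) = 0 := by
  have h1 : (univ : Finset V).powersetCard (w + 3) = ∅ := by
    rw [powersetCard_eq_empty, card_univ, Fintype.card_eq_zero]
    omega
  unfold kc
  rw [h1]
  rfl

/-- A graph on the set `S` as a graph on `Fin (card S)`. -/
private lemma fnq_transport {V : Type} [Fintype V] [DecidableEq V] (G : SimpleGraph V)
    (S : Finset V) (p r a j m : ℕ) (hm : S.card = m)
    (hd : ∀ u ∈ S, (nb G S u).card ≤ (p + 3) * a + r)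
    (hc : CB G S (p + 4)) :
    ∃ G' : SimpleGraph (Fin m), G8 G' p r a ∧ kc G' univ j = kc G S j := by
  classical
  subst hm
  let f : Fin S.card ↪ V := (S.equivFin.symm.toEmbedding).trans (Function.Embedding.subtype _)
  have hf : ∀ i, f i ∈ S := fun i => (S.equivFin.symm i).2
  have hu : (univ : Finset (Fin S.card)).map f = S := by
    ext y
    rw [mem_map]
    constructor
    · rintro ⟨x, _, rfl⟩
      exact hf x
    · intro hy
      refine ⟨S.equivFin ⟨y, hy⟩, mem_univ _, ?_⟩
      show ((S.equivFin.symm (S.equivFin ⟨y, hy⟩) : {x // x ∈ S}) : V) = y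
      rw [Equiv.symm_apply_apply]
  refine ⟨G.comap f, ⟨?_, ?_⟩, ?_⟩
  · intro T _ hT
    have h1 := hc (T.map f) (by
      intro y hy
      rw [mem_map] at hy
      obtain ⟨x, _, rfl⟩ := hy
      exact hf x) (by
      intro x hx y hy hxy
      rw [mem_coe, mem_map] at hx hy
      obtain ⟨x, hx, rfl⟩ := hx
      obtain ⟨y, hy, rfl⟩ := hy
      exact hT (mem_coe.2 hx) (mem_coe.2 hy) (fun h' => hxy (h' ▸ rfl)))
    rwa [card_map] at h1
  · intro v
    refine le_trans ?_ (hd (f v) (hf v))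
    rw [← card_map f]
    refine card_le_card ?_
    intro y hy
    rw [mem_map] at hy
    obtain ⟨y, hy, rfl⟩ := hy
    rw [mem_nb] at hy ⊢
    exact ⟨hf y, hy.2⟩
  · rw [kc_map _ G f (fun x y => Iff.rfl), hu]

/-- Graphs on `Fin m`. -/
theorem fnq_key (p r a m : ℕ) (H : SimpleGraph (Fin m)) : Adm p r a H ↔ G8 H p r a := by
  classical
  have hnc : ∀ v, (H.neighborSet v).ncard = (nb H univ v).card := by
    intro v
    have h1 : ((nb H univ v : Finset (Fin m)) : Set (Fin m)) = H.neighborSet v := by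
      ext w
      rw [mem_coe, mem_nb, SimpleGraph.mem_neighborSet]
      simp
    rw [← Set.ncard_coe_finset, h1]
  constructor
  · rintro ⟨hdeg, hcf⟩
    refine ⟨?_, ?_⟩
    · intro S _ hS
      by_contra hlt
      push Not at hlt
      obtain ⟨S', hS', hc'⟩ := exists_subset_card_eq (show p + 5 ≤ S.card by omega)
      exact hcf S' ⟨hS.subset (by
        intro y hy
        exact mem_coe.2 (hS' (mem_coe.1 hy))), hc'⟩
    · intro v
      rw [← hnc]
      exact hdeg v
  · rintro ⟨hcb, hdeg⟩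
    refine ⟨?_, ?_⟩
    · intro v
      rw [hnc]
      exact hdeg v
    · intro S hS
      have := hcb S (subset_univ _) hS.isClique
      rw [hS.card_eq] at this
      omega

/-- The bound for all graphs. -/
theorem fnq_upper (h2 : MNXStmt) (p w r : ℕ) (hp : PrX p w r) (hBK : BK p w r) :
    ∃ a₀ : ℕ, ∀ a ≥ a₀, ∀ kR : ℝ, kt p w r a ≤ kR →
      (∀ G : SimpleGraph (Fin ((p + 3) * a + r + a + 1)), G8 G p r a →
        (kc G univ (w + 3) : ℝ) ≤ kR) →
      ∀ (n : ℕ) (V : Type) [Fintype V] [DecidableEq V] (G : SimpleGraph V),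
      Fintype.card V = n → G8 G p r a →
      (kc G univ (w + 3) : ℝ) * ((((p + 3) * a + r + a + 1 : ℕ)) : ℝ) ≤
        kR * Fintype.card V := by
  classical
  obtain ⟨C, hC, a₁, hB⟩ := hBK
  obtain ⟨a₂, hM⟩ := h2 p w r hp C hC
  refine ⟨max a₁ a₂, ?_⟩
  intro a ha kR hkt hmax n
  have ha1 : a₁ ≤ a := le_trans (le_max_left _ _) ha
  have ha2 : a₂ ≤ a := le_trans (le_max_right _ _) ha
  have hN : (0 : ℝ) < ((((p + 3) * a + r + a + 1 : ℕ)) : ℝ) := by
    exact_mod_cast Nat.succ_pos _
  induction n using Nat.strong_induction_on with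
  | _ n ih =>
    intro V _ _ G hn hG
    by_contra hlt
    push Not at hlt
    have hV : Nonempty V := by
      by_contra hne
      rw [not_nonempty_iff] at hne
      have h3 : kc G univ (w + 3) = 0 := fnq_kc_empty G w
      rw [h3, Fintype.card_eq_zero] at hlt
      simp at hlt
    have hcV : (0 : ℝ) ≤ Fintype.card V := Nat.cast_nonneg _
    have hden : kt p w r a * Fintype.card V ≤
        kc G univ (w + 3) * ((((p + 3) * a + r + a + 1 : ℕ)) : ℝ) :=
      (mul_le_mul_of_nonneg_right hkt hcV).trans hlt.le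
    obtain ⟨Q, hQ⟩ := hB a ha1 G hG hV hden
    obtain ⟨hne, hcq, hm⟩ := hM a ha2 G Q hG hQ
    have hcard : Fintype.card {x : V // x ∉ un Q} + (un Q).card = Fintype.card V := by
      have h4 : Fintype.card {x : V // x ∉ un Q} = (univ \ un Q).card := by
        rw [Fintype.card_subtype]
        congr 1
        ext y
        simp
      rw [h4, card_sdiff_add_card_eq_card (subset_univ _), card_univ]
    have hpos : 0 < (un Q).card := hne.card_pos
    have h5 := ih (Fintype.card {x : V // x ∉ un Q}) (by omega) {x : V // x ∉ un Q}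
      (G.comap (Subtype.val : {x : V // x ∉ un Q} → V)) rfl (fnq_g8_sub hG (un Q))
    rw [fnq_kc_sub] at h5
    have h6 : (Fintype.card V : ℝ) = (Fintype.card {x : V // x ∉ un Q} : ℝ) + ((un Q).card : ℝ) := by
      exact_mod_cast hcard.symm
    have h7 : ((kc G univ (w + 3) : ℝ) - kc G (univ \ un Q) (w + 3)) *
        ((((p + 3) * a + r + a + 1 : ℕ)) : ℝ) ≤ kR * (un Q).card := by
      rcases hm with hm | ⟨hcN, G', hd', hc', hk'⟩
      · exact hm.trans (mul_le_mul_of_nonneg_right hkt (Nat.cast_nonneg _))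
      · obtain ⟨G'', hG'', hk''⟩ := fnq_transport G' (un Q) p r a (w + 3) _ hcN hd' hc'
        have e1 := hmax G'' hG''
        rw [hk''] at e1
        rw [hcN]
        exact mul_le_mul_of_nonneg_right (hk'.trans e1) hN.le
    rw [h6] at hlt
    nlinarith [hlt, h7, h5]

theorem fnq_thm (h1 : MNXStmt) (h2 : RFXStmt) (_h3 : NVXStmt) : FNQStmt := by
  classical
  intro p w r hp hB
  obtain ⟨a₁, hU⟩ := fnq_upper h1 p w r hp hB
  refine ⟨max a₁ 1, ?_⟩
  intro a ha
  have ha1 : a₁ ≤ a := le_trans (le_max_left _ _) ha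
  have ha2 : 1 ≤ a := le_trans (le_max_right _ _) ha
  obtain ⟨R₀, hR1, hR2, hR3⟩ := h2 p w r a hp ha2
  let T : Set (SimpleGraph (Fin ((p + 3) * a + r + a + 1))) := {R | Adm p r a R}
  have hfin : T.Finite := Set.toFinite T
  have hne : T.Nonempty := ⟨R₀, hR1, hR2⟩
  obtain ⟨R, hR, hx⟩ := Set.exists_max_image T (fun R => nc w R) hfin hne
  have hncR : ∀ {m : ℕ} (H : SimpleGraph (Fin m)), nc w H = kc H univ (w + 3) := by
    intro m H
    unfold nc
    rw [ncard_eq_kc]
  refine ⟨R, hR, fun R' hR' => hx R' hR', ?_⟩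
  have hkt : kt p w r a ≤ (nc w R : ℝ) := by
    refine hR3.trans ?_
    have h := hx R₀ ⟨hR1, hR2⟩
    exact_mod_cast h
  have hmax : ∀ G : SimpleGraph (Fin ((p + 3) * a + r + a + 1)), G8 G p r a →
      (kc G univ (w + 3) : ℝ) ≤ (nc w R : ℝ) := by
    intro G hG
    have h := hx G ((fnq_key p r a _ G).2 hG)
    rw [← hncR G]
    exact_mod_cast h
  intro m H hH
  have h := hU a ha1 (nc w R) hkt hmax m (Fin m) H (Fintype.card_fin m)
    ((fnq_key p r a _ H).1 hH)
  rw [Fintype.card_fin, ← hncR H] at h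
  exact_mod_cast h

end Pool.NG7
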