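import Pool.Agent.H7.NG.Stmts

/-! # Row XDM of the board `ng19`: the structure of the best graph on `N` vertices -/

set_option autoImplicit false

open Finset

namespace Pool.NG7

open Pool.Agent.H23.KT Pool.Agent.H46.KW Pool.KQ Pool.GT7 Pool.GU7 Pool.HZ7 Pool.IA7

private theorem xdm_cb {V : Type} [DecidableEq V] {G : SimpleGraph V} {p : ℕ}
    {Q : Fin (p + 4) → Finset V} (hQ : Par G Q) : CB G (un Q) (p + 4) := by
  intro S hS hc
  have h : ∀ u, ∃ j : Fin (p + 4), u ∈ S → u ∈ Q j := by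
    intro u
    by_cases hu : u ∈ S
    · obtain ⟨j, -, hj⟩ := mem_biUnion.1 (hS hu)
      exact ⟨j, fun _ => hj⟩
    · exact ⟨0, fun h => absurd h hu⟩
  choose f hf using h
  have h1 : S.card ≤ (univ : Finset (Fin (p + 4))).card := by
    refine card_le_card_of_injOn f (fun _ _ => by simp) ?_
    intro u hu v hv huv
    by_contra hne
    exact hQ.ind (f u) u (hf u hu) v (huv ▸ hf v hv) (hc hu hv hne)
  rwa [card_univ, Fintype.card_fin] at h1

/-- The total number of missing pairs, from the degrees. -/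
private theorem xdm_tot {V : Type} [DecidableEq V] {G : SimpleGraph V} {b : ℕ}
    {Q : Fin b → Finset V} (hQ : Par G Q) (σ : Fin b → ℕ) (δ : V → ℕ)
    (hh : ∀ j, ∀ u ∈ Q j, ∑ k ∈ univ.erase j, (non G (Q k) u).card = σ j + δ u) :
    tot G Q = ∑ j, (Q j).card * σ j + ∑ u ∈ un Q, δ u := by
  have h1 : ∑ u ∈ un Q, δ u = ∑ j, ∑ u ∈ Q j, δ u := by
    unfold un
    exact Finset.sum_biUnion (fun i _ j _ hij => hQ.dis i j hij)
  rw [h1, ← Finset.sum_add_distrib]
  unfold tot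
  apply Finset.sum_congr rfl
  intro j _
  rw [Finset.sum_comm, Finset.sum_congr rfl (fun u hu => hh j u hu), Finset.sum_add_distrib,
    Finset.sum_const, smul_eq_mul]

/-- Graphs on `Fin m`. -/
theorem xdm_key (p r a m : ℕ) (H : SimpleGraph (Fin m)) : Adm p r a H ↔ G8 H p r a := by
  classical
  have hnc : ∀ v, (H.neighborSet v).ncard = (nb H univ v).card := by
    intro v
    have h1 : ((nb H univ v : Finset (Fin m)) : Set (Fin m)) = H.neighborSet v := by
      ext w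
      rw [mem_coe, mem_nb, SimpleGraph.mem_neighborSet]
      simp
    rw [← Set.ncard_coe_finset, h1]
  constructor
  · rintro ⟨hdeg, hcf⟩
    refine ⟨?_, ?_⟩
    · intro S _ hS
      by_contra hlt
      push Not at hlt
      obtain ⟨S', hS', hc'⟩ := exists_subset_card_eq (show p + 5 ≤ S.card by omega)
      exact hcf S' ⟨hS.subset (by
        intro y hy
        exact mem_coe.2 (hS' (mem_coe.1 hy))), hc'⟩
    · intro v
      rw [← hnc]
      exact hdeg v
  · rintro ⟨hcb, hdeg⟩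
    refine ⟨?_, ?_⟩
    · intro v
      rw [hnc]
      exact hdeg v
    · intro S hS
      have := hcb S (subset_univ _) hS.isClique
      rw [hS.card_eq] at this
      omega

theorem xdm_thm (h1 : Pool.ME7.DLCStmt) (h2 : KBTStmt) (_h3 : CRTStmt) (h4 : CQXStmt)
    (h5 : Pool.ME7.AUGStmt) (h6 : MODStmt) (h7 : NTXStmt) (h8 : RFXStmt) : XDMStmt := by
  classical
  intro p w r hpr hBK
  have hz : Pool.ME7.PrZ p r := ⟨hpr.rb, hpr.rp⟩
  have hw1 := hpr.w1
  have hwp := hpr.wp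
  have hrp := hpr.rp
  have hc1 : 1 ≤ c1 p w := by
    unfold c1
    exact_mod_cast Nat.choose_pos (show w + 1 ≤ p + 2 by omega)
  obtain ⟨C, hC, a0, hB⟩ := hBK
  obtain ⟨K, hK⟩ := h1 p r hz hpr.p2 C hC
  obtain ⟨K1, hK1, a1, ha1⟩ := h2 p w hw1 hwp C hC
  obtain ⟨K2, hK2, a2, ha2⟩ := h4 p w r hpr (K + ⌈C⌉₊)
  obtain ⟨K3, hK3, a3, ha3⟩ := h7 p w r hpr K (K1 + K2) (by positivity)
  obtain ⟨a5, ha5⟩ := h5 p r hrp ⌈10 * K3⌉₊
  obtain ⟨a6, ha6⟩ := h6 p w hw1 hwp (K + ⌈10 * K3⌉₊ + 1)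
  refine ⟨K + a0 + a1 + a2 + a3 + a5 + a6 + p + 1, ?_⟩
  intro a ha R hR hbest
  have hncR : ∀ {m : ℕ} (H : SimpleGraph (Fin m)), nc w H = kc H univ (w + 3) := by
    intro m H
    unfold nc
    rw [ncard_eq_kc]
  have hG : G8 R p r a := (xdm_key p r a _ R).1 hR
  obtain ⟨R₀, hR1, hR2, hR3⟩ := h8 p w r a hpr (by omega)
  have hkt : kt p w r a ≤ (kc R univ (w + 3) : ℝ) := by
    refine hR3.trans ?_
    have h := hbest R₀ ⟨hR1, hR2⟩
    rw [← hncR R]
    exact_mod_cast h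
  have hden : kt p w r a * Fintype.card (Fin ((p + 3) * a + r + a + 1)) ≤
      kc R univ (w + 3) * ((((p + 3) * a + r + a + 1 : ℕ)) : ℝ) := by
    rw [Fintype.card_fin]
    exact mul_le_mul_of_nonneg_right hkt (Nat.cast_nonneg _)
  obtain ⟨Q, hQ⟩ := hB a (by omega) R hG ⟨⟨0, Nat.succ_pos _⟩⟩ hden
  obtain ⟨s, σ, hs1, hsK, hσK, hn, hσr, hcard, hh, hout, hdl, hD⟩ := hK a (by omega) R Q hG hQ
  have hle : (un Q).card ≤ (p + 3) * a + r + a + 1 := by
    have := card_le_univ (un Q)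
    rwa [Fintype.card_fin] at this
  have hs : s = 1 := by omega
  subst hs
  have hun : un Q = univ := by
    apply eq_univ_of_card
    rw [Fintype.card_fin, hcard]
  have haR : (0 : ℝ) ≤ a := Nat.cast_nonneg a
  have haP : (0 : ℝ) < a := by
    have : 0 < a := by omega
    exact_mod_cast this
  have hpw : (0 : ℝ) < (a : ℝ) ^ (w + 1) := by positivity
  have hCK : C ≤ ((K + ⌈C⌉₊ : ℕ) : ℝ) := by
    push_cast
    have e1 := Nat.le_ceil C
    have e2 : (0 : ℝ) ≤ K := Nat.cast_nonneg K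
    linarith
  have hkbt := ha1 a (by omega) R Q hQ.par hQ.siz hQ.tot
  have hcqt := ha2 a (by omega) R Q σ hG hQ.par (fun j => (hσK j).trans (by omega))
    (fun j => by
      have := hn j
      omega) hh hout hdl (hD.trans (mul_le_mul_of_nonneg_right hCK haR))
  have htot := xdm_tot hQ.par σ (fun u => dl R p r a (un Q) u) hh
  have hDc : ((∑ u ∈ un Q, dl R p r a (un Q) u : ℕ) : ℝ) =
      ∑ u ∈ un Q, (dl R p r a (un Q) u : ℝ) := by
    push_cast
    rfl
  have htotR : (tot R Q : ℝ) = ∑ j, ((sz Q j : ℕ) : ℝ) * σ j +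
      ∑ u ∈ un Q, (dl R p r a (un Q) u : ℝ) := by
    rw [htot]
    push_cast
    rfl
  have hYt : Yt p w a (K1 + K2) (sz Q) σ = (es (sz Q) (w + 3) : ℝ) -
      1 / 2 * c1 p w * (a : ℝ) ^ (w + 1) * ∑ j, ((sz Q j : ℕ) : ℝ) * σ j +
      (K1 + K2) * (a : ℝ) ^ (w + 1) := rfl
  have key : (kc R univ (w + 3) : ℝ) - kc R (univ \ un Q) (w + 3) ≤
      Yt p w a (K1 + K2) (sz Q) σ -
        1 / 10 * c1 p w * (a : ℝ) ^ (w + 1) * ∑ u ∈ un Q, (dl R p r a (un Q) u : ℝ) := by
    rw [htotR] at hkbt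
    rw [hYt]
    linarith
  have hout0 : kc R (univ \ un Q) (w + 3) = 0 := by
    apply kc_eq_zero
    rw [hun, sdiff_self]
    simp
  rw [hout0] at key
  have hnum := (ha3 a (by omega) 1 hs1 hsK (sz Q) σ hn hσK hσr).1 rfl
  rw [← hDc] at key
  set D := ∑ u ∈ un Q, dl R p r a (un Q) u with hDdef
  have hDle : (D : ℝ) ≤ 10 * K3 := by
    have e1 : 1 / 10 * c1 p w * (a : ℝ) ^ (w + 1) * (D : ℝ) ≤ K3 * (a : ℝ) ^ (w + 1) := by
      push_cast at key
      linarith
    have e2 : 1 / 10 * 1 * (a : ℝ) ^ (w + 1) * (D : ℝ) ≤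
        1 / 10 * c1 p w * (a : ℝ) ^ (w + 1) * (D : ℝ) := by
      refine mul_le_mul_of_nonneg_right ?_ (Nat.cast_nonneg _)
      refine mul_le_mul_of_nonneg_right ?_ hpw.le
      linarith
    have e3 : (D : ℝ) * (a : ℝ) ^ (w + 1) ≤ (10 * K3) * (a : ℝ) ^ (w + 1) := by
      nlinarith [e1, e2]
    exact le_of_mul_le_mul_right e3 hpw
  have hDM : D ≤ ⌈10 * K3⌉₊ := by
    have e3 := Nat.le_ceil (10 * K3)
    have : (D : ℝ) ≤ ((⌈10 * K3⌉₊ : ℕ) : ℝ) := hDle.trans e3
    exact_mod_cast this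
  refine ⟨Q, σ, hQ.par, hun, hn, by omega, hh, ?_⟩
  by_contra hD2
  have hnbS : ∀ u, (nb R (un Q) u).card ≤ (p + 3) * a + r := by
    intro u
    refine le_trans (Finset.card_le_card ?_) (hG.deg u)
    intro y hy
    exact (mem_nb R).mpr ⟨mem_univ _, ((mem_nb R).mp hy).2⟩
  have hdlD : ∀ u ∈ un Q, dl R p r a (un Q) u ≤ D := fun u hu =>
    single_le_sum (f := fun u => dl R p r a (un Q) u) (fun _ _ => Nat.zero_le _) hu
  obtain ⟨EA, EB, hEA, hEB, hAB, hA5, hdeg⟩ := ha5 a (by omega) R Q σ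
    (fun u => dl R p r a (un Q) u) hQ.par hn (by omega) hh (by omega) hDM
  obtain ⟨hP', hdg, hkc⟩ := ha6 a (by omega) R Q EA EB hQ.par
    (fun j => by
      have e1 := hn j
      have e2 := hσK j
      omega)
    (fun j u hu => by
      rw [hh j u hu]
      have e1 := hσK j
      have e2 := hdlD u (mem_biUnion.2 ⟨j, mem_univ _, hu⟩)
      omega) hEA hEB hAB hA5
  have hG' : G8 (md R EA EB) p r a := by
    refine ⟨?_, ?_⟩
    · have h := xdm_cb hP'
      rwa [hun] at h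
    · intro u
      have hu : u ∈ un Q := by
        rw [hun]
        exact mem_univ u
      have e1 := hdg u hu
      have e2 := hdeg u hu
      have e3 := hnbS u
      have e4 : (nb (md R EA EB) (un Q) u).card ≤ (p + 3) * a + r := by
        unfold dl at e2
        omega
      rwa [hun] at e4
  have hfin := hbest (md R EA EB) ((xdm_key p r a _ _).2 hG')
  rw [hncR, hncR] at hfin
  have hfinR : (kc (md R EA EB) univ (w + 3) : ℝ) ≤ (kc R univ (w + 3) : ℝ) := by
    exact_mod_cast hfin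
  rw [hun] at hkc
  have hpos : 0 < 1 / 2 * c1 p w * (a : ℝ) ^ (w + 1) := by
    have : 0 < c1 p w := by linarith
    positivity
  linarith

end Pool.NG7
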